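import Pool.Agent.Lib.MP_5351bf_an.Main

set_option autoImplicit false

open MeasureTheory
open Pool.Agent.Lib.MP_5351bf_an

namespace Pool.Agent.Results.MP_5351bf_an.ProductIdentity

/-- For every characteristic class `F`, every automorphism `A` and every standard probability
space `(Y, ν)`, the largest `F`-factors of `A` and of `A × Id_Y` exist, and the latter is the
product of the former with the full sigma-algebra of `Y`, modulo null sets. -/
theorem result (F : Aut → Prop) (hF : IsCharClass F) (A : Aut)
    (Y : Type) [mY : MeasurableSpace Y] [StandardBorelSpace Y] (ν : Measure Y)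
    [IsProbabilityMeasure ν] :
    (∃ m, IsLargest F A m) ∧ (∃ D, IsLargest F (prodAut A (idAut Y ν)) D) ∧
    ∀ (m : MeasurableSpace A.X) (D : MeasurableSpace (A.X × Y)),
      IsLargest F A m → IsLargest F (prodAut A (idAut Y ν)) D →
        EqMod (prodAut A (idAut Y ν)) D (m.prod mY) :=
  ⟨exists_largest hF A, exists_largest hF _, fun _ _ hm hD =>
    ⟨(largest_prod hF hm).2 _ hD.1, hD.2 _ (largest_prod hF hm).1⟩⟩

end Pool.Agent.Results.MP_5351bf_an.ProductIdentity
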